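import Pool.Agent.Helper62.NT.Goals

/-!
# Project NT (MP_8ff381_an), packet USUM (helper26)
-/

set_option autoImplicit false

noncomputable section

namespace Pool.Agent.Helper26.NT.USUM

open Filter Topology
open Pool.Agent.Helper62.NT

/-- the limit at infinity -/
def li (a : ℕ → ℝ) : ℝ := limUnder atTop a

theorem li_spec (h1 : S_VBAS) {a : ℕ → ℝ} (ha : BV a) : Tendsto a atTop (𝓝 (li a)) :=
  tendsto_nhds_limUnder (h1.2.2.2.2.2.1 a ha)

theorem V_le (h1 : S_VBAS) {a : ℕ → ℝ} {R : ℝ} (hR : 0 ≤ R) (ha : VB a R) : V a ≤ √R :=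
  h1.2.2.1 a (√R) (Real.sqrt_nonneg R) (by rwa [Real.sq_sqrt hR])

theorem VB_of_V (h1 : S_VBAS) {a : ℕ → ℝ} {C : ℝ} (ha : BV a) (h : V a ≤ C) :
    VB a (C ^ 2) := fun n p hp => by
  have h2 := h1.2.1 a ha n p hp
  have h3 := h1.1 a
  refine h2.trans ?_
  gcongr

theorem VB_mono {a : ℕ → ℝ} {C D : ℝ} (h : VB a C) (hCD : C ≤ D) : VB a D := fun n p hp =>
  (h n p hp).trans hCD

theorem t (h1 : S_VBAS) (h2 : S_QVBAS) (h3 : S_UPP) (h4 : S_ULT) : S_USUM := by
  intro g k m θ hg hkm hθ hsep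
  obtain ⟨R, hR⟩ := hg
  obtain ⟨u1, u2, u3, u4, u5, u6, u7⟩ := h4
  have hR0 : 0 ≤ R := (abs_nonneg _).trans ((hR []).2 0)
  have hPL := u7 g R hR
  have hPV : ∀ r u, VB (PL g r u) R := fun r u => (hPL r u).1
  have hPB : ∀ r u, BV (PL g r u) := fun r u => ⟨R, hPV r u⟩
  have hPVle : ∀ r u, V (PL g r u) ≤ √R := fun r u => V_le h1 hR0 (hPV r u)
  have hD : ∀ i u, BV (Dl g m i u) ∧ V (Dl g m i u) ≤ 2 * √R := by
    intro i u
    have h5 := h1.2.2.2.2.1 (PL g (m - i) u) (PL g (m - i + 1) u.tail) (hPB _ _) (hPB _ _)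
    have h6 := hPVle (m - i) u
    have h7 := hPVle (m - i + 1) u.tail
    exact ⟨h5.1, by linarith [show V (Dl g m i u) ≤ _ from h5.2]⟩
  obtain ⟨v, hvdef⟩ : ∃ v : ℕ → ℝ, v = fun i => ulim (UN i) fun u => V (Dl g m i u) := ⟨_, rfl⟩
  have hv : ∀ i, Tendsto (fun u => V (Dl g m i u)) (UN i) (𝓝 (v i)) := by
    intro i
    rw [hvdef]
    exact (u1 _ (UN i) _ (2 * √R) (fun u => by
      rw [abs_of_nonneg (h1.1 _)]; exact (hD i u).2)).1
  have hv0 : ∀ i, 0 ≤ v i := fun i =>
    ge_of_tendsto (hv i) (Eventually.of_forall fun u => h1.1 _)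
  have hli : ∀ r u, |li (PL g r u)| ≤ R := fun r u =>
    le_of_tendsto ((li_spec h1 (hPB r u)).abs) (Eventually.of_forall fun t => (hPL r u).2.1 t)
  obtain ⟨cc, hccdef⟩ : ∃ cc : ℕ → ℝ, cc = fun i => ulim (UN i) fun u => li (PL g (m - i) u) :=
    ⟨_, rfl⟩
  have hcc : ∀ i, Tendsto (fun u => li (PL g (m - i) u)) (UN i) (𝓝 (cc i)) := by
    intro i
    rw [hccdef]
    exact (u1 _ (UN i) _ R (fun u => hli _ _)).1
  -- the induction
  have key : ∀ j, j ≤ m - k → ∀ ε : ℝ, 0 < ε →
      ∀ᶠ c in (UP k j : Filter (List ℕ × List ℕ)),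
        Qv (fun t => PL g (m - k - j) c.1 t - PL g (m - k - j) c.2 t)
          (li (PL g (m - k - j) c.1) - li (PL g (m - k - j) c.2)) ^ 2 ≤
          8 * ∑ i ∈ Finset.Ioc k (k + j), v i ^ 2 + ε := by
    intro j
    induction j with
    | zero =>
      intro _ ε hε
      have h5 : (UP k 0 : Filter (List ℕ × List ℕ)) =
          ((UN k : Filter (List ℕ)).map fun u => (u, u)) := rfl
      rw [h5, eventually_map]
      refine Eventually.of_forall fun u => ?_
      simp only [sub_self]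
      rw [h2.2.2.2.2.2.2]
      simp [hε.le]
    | succ j ih =>
      intro hj ε hε
      obtain ⟨r, hr⟩ : ∃ r, r = m - k - (j + 1) := ⟨_, rfl⟩
      have hr1 : m - k - j = r + 1 := by omega
      have hr2 : m - (k + j + 1) = r := by omega
      have hr3 : m - (k + j) = r + 1 := by omega
      rw [← hr, u4]
      have hC0 : (0 : ℝ) ≤ 16 * R := by positivity
      obtain ⟨δ, hδ, hU⟩ := h3 (16 * R) (ε / 3) (by positivity)
      obtain ⟨vi, hvi⟩ : ∃ x, x = v (k + j + 1) := ⟨_, rfl⟩
      have hvi0 : 0 ≤ vi := hvi ▸ hv0 _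
      obtain ⟨η, hη⟩ : ∃ η : ℝ, η = min 1 (ε / 3 / (8 * vi + 2)) := ⟨_, rfl⟩
      have hη0 : 0 < η := by rw [hη]; positivity
      have hη1 : η ≤ 1 := by rw [hη]; exact min_le_left _ _
      have hη2 : η * (8 * vi + 2) ≤ ε / 3 := by
        have : η ≤ ε / 3 / (8 * vi + 2) := by rw [hη]; exact min_le_right _ _
        rwa [le_div_iff₀ (by positivity)] at this
      -- almost all nodes
      have e1 : ∀ᶠ u in (UN (k + j) : Filter (List ℕ)), ∀ᶠ n in (UU : Filter ℕ),
          V (Dl g m (k + j + 1) (n :: u)) ≤ vi + η / 2 := by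
        rw [← u2 (k + j) (fun u => V (Dl g m (k + j + 1) u) ≤ vi + η / 2)]
        have := (hv (k + j + 1)).eventually_lt_const
          (show v (k + j + 1) < vi + η / 2 by rw [← hvi]; linarith)
        exact this.mono fun u hu => hu.le
      have e2 : ∀ᶠ u in (UN (k + j) : Filter (List ℕ)),
          |li (PL g (r + 1) u) - cc (k + j)| ≤ δ / 4 := by
        have h5 := hcc (k + j)
        rw [hr3] at h5
        have h6 := (Metric.tendsto_nhds.1 h5) (δ / 4) (by positivity)
        exact h6.mono fun u hu => (by rw [Real.dist_eq] at hu; exact hu.le)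
      have e3 : ∀ᶠ u in (UN (k + j) : Filter (List ℕ)), ∀ᶠ n in (UU : Filter ℕ),
          |li (PL g r (n :: u)) - cc (k + j + 1)| ≤ δ / 4 := by
        rw [← u2 (k + j) (fun u => |li (PL g r u) - cc (k + j + 1)| ≤ δ / 4)]
        have h5 := hcc (k + j + 1)
        rw [hr2] at h5
        have h6 := (Metric.tendsto_nhds.1 h5) (δ / 4) (by positivity)
        exact h6.mono fun u hu => (by rw [Real.dist_eq] at hu; exact hu.le)
      have f1 := u5 k j _ e1
      have f2 := u5 k j _ e2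
      have f3 := u5 k j _ e3
      have f4 := ih (by omega) (ε / 3) (by positivity)
      rw [hr1] at f4
      filter_upwards [f1, f2, f3, f4] with c c1 c2 c3 c4
      obtain ⟨x, y⟩ := c
      simp only at c1 c2 c3 c4 ⊢
      obtain ⟨a, ha⟩ : ∃ a : ℕ → ℝ, a = fun t => PL g (r + 1) x t - PL g (r + 1) y t := ⟨_, rfl⟩
      obtain ⟨l, hl⟩ : ∃ l : ℝ, l = li (PL g (r + 1) x) - li (PL g (r + 1) y) := ⟨_, rfl⟩
      obtain ⟨w, hw⟩ : ∃ w : ℕ × ℕ → ℕ → ℝ, w = fun p t =>
          Dl g m (k + j + 1) (p.1 :: x) t - Dl g m (k + j + 1) (p.2 :: y) t := ⟨_, rfl⟩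
      obtain ⟨m', hm'⟩ : ∃ m' : ℕ × ℕ → ℝ, m' = fun p =>
          (li (PL g r (p.1 :: x)) - li (PL g (r + 1) x)) -
          (li (PL g r (p.2 :: y)) - li (PL g (r + 1) y)) := ⟨_, rfl⟩
      have hDl : ∀ n (z : List ℕ) t, Dl g m (k + j + 1) (n :: z) t =
          PL g r (n :: z) t - PL g (r + 1) z t := by
        intro n z t
        unfold Dl
        rw [hr2, List.tail_cons]
      have hwV : ∀ p, BV (w p) ∧ V (w p) ≤
          V (Dl g m (k + j + 1) (p.1 :: x)) + V (Dl g m (k + j + 1) (p.2 :: y)) := by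
        intro p
        rw [hw]
        exact h1.2.2.2.2.1 _ _ (hD _ _).1 (hD _ _).1
      have hsq : (4 * √R) ^ 2 = 16 * R := by
        rw [mul_pow, Real.sq_sqrt hR0]; norm_num
      have hwVB : ∀ p, VB (w p) (16 * R) := by
        intro p
        rw [← hsq]
        refine VB_of_V h1 (hwV p).1 ?_
        have h5 := (hD (k + j + 1) (p.1 :: x)).2
        have h6 := (hD (k + j + 1) (p.2 :: y)).2
        linarith [(hwV p).2]
      have haV : BV a ∧ V a ≤ V (PL g (r + 1) x) + V (PL g (r + 1) y) := by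
        rw [ha]
        exact h1.2.2.2.2.1 _ _ (hPB _ _) (hPB _ _)
      have haVB : VB a (16 * R) := by
        rw [← hsq]
        refine VB_of_V h1 haV.1 ?_
        have h5 := hPVle (r + 1) x
        have h6 := hPVle (r + 1) y
        have h7 := Real.sqrt_nonneg R
        linarith [haV.2]
      have hal : Tendsto a atTop (𝓝 l) := by
        rw [ha, hl]
        exact (li_spec h1 (hPB _ _)).sub (li_spec h1 (hPB _ _))
      have hwm : ∀ p, Tendsto (w p) atTop (𝓝 (m' p)) := by
        intro p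
        rw [hw, hm']
        simp only [hDl]
        exact ((li_spec h1 (hPB _ _)).sub (li_spec h1 (hPB _ _))).sub
          ((li_spec h1 (hPB _ _)).sub (li_spec h1 (hPB _ _)))
      have hw0 : ∀ t, Tendsto (fun p => w p t) ((UU : Filter ℕ).curry (UU : Filter ℕ)) (𝓝 0) := by
        intro t
        rw [hw]
        simp only [hDl]
        have g1 : ∀ z : List ℕ, Tendsto (fun n => PL g r (n :: z) t - PL g (r + 1) z t)
            (UU : Filter ℕ) (𝓝 0) := by
          intro z
          have := ((hPL r z).2.2 t).sub_const (PL g (r + 1) z t)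
          rwa [sub_self] at this
        have g2 : Tendsto (fun p : ℕ × ℕ => (PL g r (p.1 :: x) t - PL g (r + 1) x t) -
            (PL g r (p.2 :: y) t - PL g (r + 1) y t)) ((UU : Filter ℕ) ×ˢ (UU : Filter ℕ))
            (𝓝 (0 - 0)) := ((g1 x).comp tendsto_fst).sub ((g1 y).comp tendsto_snd)
        rw [sub_zero] at g2
        exact g2.mono_left curry_le_prod
      have hmδ : ∀ᶠ p in ((UU : Filter ℕ).curry (UU : Filter ℕ)), |m' p| ≤ δ := by
        rw [eventually_curry_iff]
        filter_upwards [c3.1] with n hn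
        filter_upwards [c3.2] with n' hn'
        rw [hm']
        simp only
        have b1 := abs_le.1 hn
        have b2 := abs_le.1 hn'
        have b3 := abs_le.1 c2.1
        have b4 := abs_le.1 c2.2
        rw [abs_le]
        constructor <;> linarith [b1.1, b1.2, b2.1, b2.2, b3.1, b3.2, b4.1, b4.2]
      have hfin := hU (ℕ × ℕ) ((UU : Filter ℕ).curry (UU : Filter ℕ)) a l w m' haVB hal hwVB hwm
        hw0 hmδ
      have hVw : ∀ᶠ p in ((UU : Filter ℕ).curry (UU : Filter ℕ)), V (w p) ≤ 2 * vi + η := by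
        rw [eventually_curry_iff]
        filter_upwards [c1.1] with n hn
        filter_upwards [c1.2] with n' hn'
        have := (hwV (n, n')).2
        simp only at this
        linarith
      have hall := hfin.and hVw
      rw [eventually_curry_iff] at hall
      filter_upwards [hall] with n hn
      filter_upwards [hn] with n' hn'
      obtain ⟨q1, q2⟩ := hn'
      have r1 : (fun t => a t + w (n, n') t) = fun t => PL g r (n :: x) t - PL g r (n' :: y) t := by
        funext t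
        rw [ha, hw]
        simp only [hDl]
        ring
      have r2 : l + m' (n, n') = li (PL g r (n :: x)) - li (PL g r (n' :: y)) := by
        rw [hl, hm']
        ring
      rw [r1, r2] at q1
      have r3 : Finset.Ioc k (k + (j + 1)) = insert (k + j + 1) (Finset.Ioc k (k + j)) := by
        ext z
        simp only [Finset.mem_Ioc, Finset.mem_insert]
        omega
      rw [r3, Finset.sum_insert (by simp), ← hvi]
      rw [← ha, ← hl] at c4
      have r4 : V (w (n, n')) ^ 2 ≤ (2 * vi + η) ^ 2 := by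
        have := h1.1 (w (n, n'))
        gcongr
      have r5 : 2 * (2 * vi + η) ^ 2 ≤ 8 * vi ^ 2 + ε / 3 := by
        have : 2 * (2 * vi + η) ^ 2 = 8 * vi ^ 2 + η * (8 * vi + 2 * η) := by ring
        rw [this]
        have : η * (8 * vi + 2 * η) ≤ η * (8 * vi + 2) := by
          gcongr
          linarith
        linarith
      linarith
  -- conclusion
  refine le_of_forall_pos_le_add fun ε hε => ?_
  obtain ⟨j, hj⟩ : ∃ j, m - k = j + 1 := ⟨m - k - 1, by omega⟩
  have k1 := key (m - k) le_rfl ε hε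
  rw [Nat.sub_self, Nat.add_sub_cancel' hkm.le] at k1
  have k2 := u6 k j
  rw [← hj] at k2
  obtain ⟨c, c1, x, y, u, n, n', rfl, hn, hx, hy, hu⟩ := (k1.and k2).exists
  have c3 := hsep x y u n n' hn (hx.trans hy.symm) hu (by simp [hx, hu]; omega)
  have c4 : BV (fun t => g (x ++ n :: u) t - g (y ++ n' :: u) t) :=
    (h1.2.2.2.2.1 _ _ ⟨R, (hR _).1⟩ ⟨R, (hR _).1⟩).1
  have c5 := h2.2.2.2.2.1 _ (li (PL g 0 (x ++ n :: u)) - li (PL g 0 (y ++ n' :: u))) c4
  have c6 : θ ≤ Qv (fun t => g (x ++ n :: u) t - g (y ++ n' :: u) t)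
    (li (PL g 0 (x ++ n :: u)) - li (PL g 0 (y ++ n' :: u))) := c3.trans c5
  have c7 : θ ^ 2 ≤ Qv (fun t => g (x ++ n :: u) t - g (y ++ n' :: u) t)
    (li (PL g 0 (x ++ n :: u)) - li (PL g 0 (y ++ n' :: u))) ^ 2 := by gcongr
  have c8 : Qv (fun t => g (x ++ n :: u) t - g (y ++ n' :: u) t)
    (li (PL g 0 (x ++ n :: u)) - li (PL g 0 (y ++ n' :: u))) ^ 2 ≤
      8 * ∑ i ∈ Finset.Ioc k m, v i ^ 2 + ε := c1
  rw [hvdef] at c8
  exact c7.trans c8

end Pool.Agent.Helper26.NT.USUM
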